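import Mathlib

set_option autoImplicit false

open MeasureTheory

namespace Pool.Agent.Lib.MP_5351bf_an

/-- An automorphism of a standard probability space. -/
structure Aut where
  X : Type
  [mX : MeasurableSpace X]
  [sb : StandardBorelSpace X]
  μ : Measure X
  [prob : IsProbabilityMeasure μ]
  T : X ≃ᵐ X
  mp : MeasurePreserving T μ μ

attribute [instance] Aut.mX Aut.sb Aut.prob

/-- `π` is a factor map from `A` onto `B`. -/
def IsFactorMap (A B : Aut) (π : A.X → B.X) : Prop :=
  MeasurePreserving π A.μ B.μ ∧ ∀ᵐ x ∂A.μ, π (A.T x) = B.T (π x)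

/-- The identity map of a standard probability space. -/
def idAut (Y : Type) [MeasurableSpace Y] [StandardBorelSpace Y] (ν : Measure Y)
    [IsProbabilityMeasure ν] : Aut where
  X := Y
  μ := ν
  T := MeasurableEquiv.refl Y
  mp := MeasurePreserving.id ν

/-- The direct product of two automorphisms. -/
noncomputable def prodAut (A B : Aut) : Aut where
  X := A.X × B.X
  μ := A.μ.prod B.μ
  T := A.T.prodCongr B.T
  mp := A.mp.prod B.mp

/-- The product map of countably many automorphisms with an invariant probability measure. -/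
def piAut (A : ℕ → Aut) (lam : Measure (∀ i, (A i).X)) [IsProbabilityMeasure lam]
    (h : MeasurePreserving (fun x i => (A i).T (x i)) lam lam) : Aut where
  X := ∀ i, (A i).X
  μ := lam
  T := MeasurableEquiv.piCongrRight fun i => (A i).T
  mp := h

/-- A characteristic class: closed under factors (hence isomorphisms) and countable joinings,
and containing all identity maps. -/
structure IsCharClass (F : Aut → Prop) : Prop where
  factor : ∀ (A B : Aut) (π : A.X → B.X), IsFactorMap A B π → F A → F B
  joining : ∀ (A : ℕ → Aut) (lam : Measure (∀ i, (A i).X)) [IsProbabilityMeasure lam]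
    (h : MeasurePreserving (fun x i => (A i).T (x i)) lam lam),
    (∀ i, lam.map (fun x => x i) = (A i).μ) → (∀ i, F (A i)) → F (piAut A lam h)
  ident : ∀ (Y : Type) [MeasurableSpace Y] [StandardBorelSpace Y] (ν : Measure Y)
    [IsProbabilityMeasure ν], F (idAut Y ν)

/-- Inclusion of the sigma-algebra `m` in `m'` modulo `A.μ`-null sets. -/
def LeMod (A : Aut) (m m' : MeasurableSpace A.X) : Prop :=
  ∀ s, MeasurableSet[m] s → ∃ t, MeasurableSet[m'] t ∧ s =ᵐ[A.μ] t

/-- Equality of sigma-algebras modulo `A.μ`-null sets. -/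
def EqMod (A : Aut) (m m' : MeasurableSpace A.X) : Prop :=
  LeMod A m m' ∧ LeMod A m' m

/-- `m` is an invariant sub-sigma-algebra of `A` whose factor lies in `F`. -/
def IsFactorIn (F : Aut → Prop) (A : Aut) (m : MeasurableSpace A.X) : Prop :=
  m ≤ A.mX ∧ ∃ (Z : Aut) (π : A.X → Z.X), F Z ∧ IsFactorMap A Z π ∧ EqMod A m (Z.mX.comap π)

/-- `m` is the largest invariant sub-sigma-algebra of `A` whose factor lies in `F`. -/
def IsLargest (F : Aut → Prop) (A : Aut) (m : MeasurableSpace A.X) : Prop :=
  IsFactorIn F A m ∧ ∀ m', IsFactorIn F A m' → LeMod A m' m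

end Pool.Agent.Lib.MP_5351bf_an
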