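import Mathlib

set_option autoImplicit false

open MeasureTheory ProbabilityTheory Filter Set Topology
open scoped ENNReal

namespace Pool.Agent.Lib.MP_5351bf_an

/-- a function measurable modulo a sigma-filter agrees with a measurable function -/
lemma exists_measurable_of_eventuallyMeasurable {α : Type*} {m : MeasurableSpace α}
    {l : Filter α} [CountableInterFilter l] {f : α → ℝ} (hf : EventuallyMeasurable m l f) :
    ∃ g : α → ℝ, Measurable[m] g ∧ f =ᶠ[l] g := by
  classical
  have he : MeasurableEmbedding (MeasurableSpace.mapNatBool ℝ) :=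
    (MeasurableSpace.measurable_mapNatBool ℝ).measurableEmbedding
      (MeasurableSpace.injective_mapNatBool ℝ)
  have h1 : ∀ n : ℕ, ∃ t, MeasurableSet[m] t ∧
      {x | MeasurableSpace.mapNatBool ℝ (f x) n = true} =ᶠ[l] t := by
    intro n
    have hm : MeasurableSet {y : ℝ | MeasurableSpace.mapNatBool ℝ y n = true} :=
      ((measurable_pi_apply n).comp he.measurable) (measurableSet_singleton true)
    exact hf hm
  choose t ht hft using h1
  let ψ : α → ℕ → Bool := fun x n => decide (x ∈ t n)
  have hψ : Measurable[m] ψ := by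
    refine measurable_pi_lambda _ fun n => ?_
    refine measurable_to_bool ?_
    have : (fun x => ψ x n) ⁻¹' {true} = t n := by
      ext x; simp [ψ]
    rw [this]
    exact ht n
  refine ⟨fun x => he.invFun (ψ x), he.measurable_invFun.comp hψ, ?_⟩
  have h2 : ∀ᶠ x in l, ∀ n, (MeasurableSpace.mapNatBool ℝ (f x) n = true ↔ x ∈ t n) := by
    rw [eventually_countable_forall]
    intro n
    filter_upwards [hft n] with x hx
    exact Iff.of_eq hx
  filter_upwards [h2] with x hx
  have : ψ x = MeasurableSpace.mapNatBool ℝ (f x) := by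
    ext n
    by_cases h : x ∈ t n
    · simp [ψ, h, (hx n).2 h]
    · have h' : ¬ MeasurableSpace.mapNatBool ℝ (f x) n = true := fun h0 => h ((hx n).1 h0)
      simp only [ψ, h, decide_false]
      simpa using h'
  rw [this, he.leftInverse_invFun]

lemma ev_le_ev {α : Type*} {m m' : MeasurableSpace α} {l : Filter α} [CountableInterFilter l]
    (h : m ≤ eventuallyMeasurableSpace m' l) :
    eventuallyMeasurableSpace m l ≤ eventuallyMeasurableSpace m' l := by
  rintro s ⟨t, ht, hst⟩
  obtain ⟨u, hu, htu⟩ := h t ht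
  exact ⟨u, hu, hst.trans htu⟩

/-- law of large numbers in the fibres -/
lemma lln {X Y : Type*} [MeasurableSpace X] [MeasurableSpace Y] (μ : Measure X) (ν : Measure Y)
    [IsProbabilityMeasure μ] [IsProbabilityMeasure ν] {g : Set (X × Y)} (hg : MeasurableSet g) :
    ∀ᵐ p ∂(μ.prod (Measure.infinitePi fun _ : ℕ => ν)),
      Tendsto (fun n : ℕ => (∑ i ∈ Finset.range n, g.indicator (fun _ => (1 : ℝ)) (p.1, p.2 i)) / n)
        atTop (𝓝 (ν (Prod.mk p.1 ⁻¹' g)).toReal) := by
  have hind : Measurable (g.indicator (fun _ => (1 : ℝ))) := measurable_const.indicator hg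
  rw [Measure.ae_prod_iff_ae_ae]
  · refine ae_of_all _ fun x => ?_
    have hx : Measurable fun y : Y => g.indicator (fun _ => (1 : ℝ)) (x, y) :=
      hind.comp measurable_prodMk_left
    have hmp : ∀ i : ℕ, MeasurePreserving (fun ω : ℕ → Y => ω i)
        (Measure.infinitePi fun _ : ℕ => ν) ν := fun i =>
      measurePreserving_eval_infinitePi (fun _ : ℕ => ν) i
    have hint0 : Integrable (fun y : Y => g.indicator (fun _ => (1 : ℝ)) (x, y)) ν := by
      refine Integrable.of_bound hx.aestronglyMeasurable 1 (ae_of_all _ fun y => ?_)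
      by_cases h : (x, y) ∈ g <;> simp [h]
    have h1 := strong_law_ae_real (μ := Measure.infinitePi fun _ : ℕ => ν)
      (fun i ω => g.indicator (fun _ => (1 : ℝ)) (x, ω i))
      ((hmp 0).integrable_comp_of_integrable hint0) ?_ ?_
    · have e : ∫ ω, g.indicator (fun _ => (1 : ℝ)) (x, ω 0) ∂(Measure.infinitePi fun _ : ℕ => ν)
          = (ν (Prod.mk x ⁻¹' g)).toReal := by
        have e1 := integral_map (μ := Measure.infinitePi fun _ : ℕ => ν)
          (hmp 0).measurable.aemeasurable (f := fun y : Y => g.indicator (fun _ => (1 : ℝ)) (x, y))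
          hx.aestronglyMeasurable
        rw [← e1, (hmp 0).map_eq]
        have e2 : (fun y : Y => g.indicator (fun _ => (1 : ℝ)) (x, y))
            = (Prod.mk x ⁻¹' g).indicator (fun _ => (1 : ℝ)) := by
          ext y
          by_cases h : (x, y) ∈ g <;> simp [h]
        rw [e2, integral_indicator (measurable_prodMk_left hg)]
        simp [Measure.real]
      rw [e] at h1
      exact h1
    · intro i j hij
      exact (iIndepFun_infinitePi (P := fun _ : ℕ => ν)
        (X := fun _ y => g.indicator (fun _ => (1 : ℝ)) (x, y)) (fun _ => hx)).indepFun hij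
    · intro i
      refine ⟨(hx.comp (hmp i).measurable).aemeasurable,
        (hx.comp (hmp 0).measurable).aemeasurable, ?_⟩
      have e1 := Measure.map_map (μ := Measure.infinitePi fun _ : ℕ => ν) hx (hmp i).measurable
      have e2 := Measure.map_map (μ := Measure.infinitePi fun _ : ℕ => ν) hx (hmp 0).measurable
      rw [(hmp i).map_eq] at e1
      rw [(hmp 0).map_eq] at e2
      exact e1.symm.trans e2
  · refine measurableSet_tendsto_fun (fun n => ?_) ?_
    · refine Measurable.div_const (Finset.measurable_sum _ fun i _ => hind.comp ?_) _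
      exact measurable_fst.prodMk ((measurable_pi_apply i).comp measurable_snd)
    · exact ((measurable_measure_prodMk_left hg).comp measurable_fst).ennreal_toReal

/-- a set in a product whose fibre measures are `m`-measurable is `m ⊗ C`-measurable -/
lemma prod_measurable_of_fibres {X Y : Type*} {m : MeasurableSpace X} [mX : MeasurableSpace X]
    [StandardBorelSpace X] [mY : MeasurableSpace Y] (hm : m ≤ mX) (μ : Measure X) (ν : Measure Y)
    [IsProbabilityMeasure μ] [IsProbabilityMeasure ν] {s : Set (X × Y)} (hs : MeasurableSet s)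
    (h : ∀ c : Set Y, MeasurableSet c → EventuallyMeasurable m (ae μ)
      (fun x => (ν (Prod.mk x ⁻¹' (s ∩ Prod.snd ⁻¹' c))).toReal)) :
    ∃ t, MeasurableSet[m.prod mY] t ∧ s =ᵐ[μ.prod ν] t := by
  let κ := condExpKernel μ m
  let H : X × Y → ℝ≥0∞ := fun p => κ p.1 ((fun x' => (x', p.2)) ⁻¹' s)
  have hH : Measurable[m.prod mY] H := by
    let κ' : @Kernel (X × Y) X (m.prod mY) mX :=
      @Kernel.comap X X m mX (X × Y) (m.prod mY) κ Prod.fst (@measurable_fst X Y m mY)
    have ht : @MeasurableSet ((X × Y) × X) ((m.prod mY).prod mX)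
        {q : (X × Y) × X | (q.2, q.1.2) ∈ s} := by
      have h1 : @Measurable ((X × Y) × X) X ((m.prod mY).prod mX) mX Prod.snd :=
        @measurable_snd (X × Y) X (m.prod mY) mX
      have h2 : @Measurable ((X × Y) × X) Y ((m.prod mY).prod mX) mY (fun q => q.1.2) :=
        (@measurable_snd X Y m mY).comp (@measurable_fst (X × Y) X (m.prod mY) mX)
      exact (h1.prodMk h2) hs
    exact @Kernel.measurable_kernel_prodMk_left (X × Y) X (m.prod mY) mX κ' _ _ ht
  have hle : m.prod mY ≤ Prod.instMeasurableSpace :=
    sup_le_sup (MeasurableSpace.comap_mono hm) le_rfl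
  have hH' : Measurable H := hH.mono hle le_rfl
  have key : (μ.prod ν).withDensity (s.indicator 1) = (μ.prod ν).withDensity H := by
    rw [withDensity_indicator_one hs]
    refine Measure.ext_prod fun {a c} ha hc => ?_
    have hsc : MeasurableSet (s ∩ Prod.snd ⁻¹' c) := hs.inter (measurable_snd hc)
    let φ : X → ℝ≥0∞ := fun x => ν (Prod.mk x ⁻¹' (s ∩ Prod.snd ⁻¹' c))
    have hφ : Measurable φ := measurable_measure_prodMk_left hsc
    have hφ1 : ∀ x, φ x ≠ ⊤ := fun x => measure_ne_top _ _
    have hint : Integrable (fun x => (φ x).toReal) μ := by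
      refine Integrable.of_bound hφ.ennreal_toReal.aestronglyMeasurable 1 (ae_of_all _ fun x => ?_)
      rw [Real.norm_of_nonneg ENNReal.toReal_nonneg]
      exact ENNReal.toReal_le_of_le_ofReal zero_le_one (by simpa using prob_le_one)
    have hsm : AEStronglyMeasurable[m] (fun x => (φ x).toReal) μ := by
      obtain ⟨g, hg, hfg⟩ := exists_measurable_of_eventuallyMeasurable (h c hc)
      exact ⟨g, hg.stronglyMeasurable, hfg⟩
    have h1 : ∀ᵐ x ∂μ, ∫⁻ x', φ x' ∂(κ x) = φ x := by
      filter_upwards [condExp_ae_eq_integral_condExpKernel hm hint,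
        condExp_of_aestronglyMeasurable' hm hsm hint] with x h2 h3
      rw [h3] at h2
      rw [integral_toReal hφ.aemeasurable (ae_of_all _ fun x => (hφ1 x).lt_top)] at h2
      have h4 : ∫⁻ x', φ x' ∂(κ x) ≠ ⊤ := by
        refine ne_top_of_le_ne_top (b := ∫⁻ _, 1 ∂(κ x)) (by simp) (lintegral_mono fun x' => ?_)
        exact prob_le_one
      exact ((ENNReal.toReal_eq_toReal_iff' (hφ1 x) h4).1 h2).symm
    have l1 : (μ.prod ν).restrict s (a ×ˢ c) = ∫⁻ x in a, φ x ∂μ := by
      rw [Measure.restrict_apply (ha.prod hc), Measure.prod_apply ((ha.prod hc).inter hs),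
        ← lintegral_indicator ha]
      congr 1
      ext x
      by_cases hx : x ∈ a
      · simp only [hx, indicator_of_mem, φ]
        congr 1
        ext y
        simp [hx, and_comm]
      · have : Prod.mk x ⁻¹' (a ×ˢ c ∩ s) = ∅ := by
          ext y; simp [hx]
        simp [hx, this]
    have l2 : (μ.prod ν).withDensity H (a ×ˢ c) = ∫⁻ x in a, ∫⁻ y in c, H (x, y) ∂ν ∂μ := by
      rw [withDensity_apply _ (ha.prod hc), ← Measure.prod_restrict,
        lintegral_prod _ hH'.aemeasurable]
    have l3 : ∀ x, ∫⁻ y in c, H (x, y) ∂ν = ∫⁻ x', φ x' ∂(κ x) := by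
      intro x
      have e1 := Measure.prod_apply (μ := κ x) (ν := ν) hsc
      have e2 := Measure.prod_apply_symm (μ := κ x) (ν := ν) hsc
      rw [← e1, e2, ← lintegral_indicator hc]
      congr 1
      ext y
      by_cases hy : y ∈ c
      · simp only [hy, indicator_of_mem, H]
        congr 1
        ext x'
        simp [hy]
      · have : (fun x' : X => (x', y)) ⁻¹' (s ∩ Prod.snd ⁻¹' c) = ∅ := by
          ext x'; simp [hy]
        simp [hy, this]
    rw [l1, l2]
    simp only [l3]
    exact (lintegral_congr_ae (ae_restrict_of_ae h1)).symm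
  have key2 := (withDensity_eq_iff_of_sigmaFinite (measurable_one.indicator hs).aemeasurable
    hH'.aemeasurable).1 key
  refine ⟨H ⁻¹' {1}, hH (measurableSet_singleton 1), ?_⟩
  filter_upwards [key2] with p hp
  apply propext
  change p ∈ s ↔ H p = 1
  rw [← hp]
  by_cases h : p ∈ s <;> simp [h]

end Pool.Agent.Lib.MP_5351bf_an
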