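import Pool.Agent.Lib.MP_5351bf_an.Defs
import Pool.Agent.Lib.MP_5351bf_an.Meas

set_option autoImplicit false

open MeasureTheory ProbabilityTheory Filter Set Topology
open scoped ENNReal

namespace Pool.Agent.Lib.MP_5351bf_an

lemma leMod_iff {A : Aut} {m m' : MeasurableSpace A.X} :
    LeMod A m m' ↔ m ≤ eventuallyMeasurableSpace m' (ae A.μ) := Iff.rfl

lemma LeMod.of_le {A : Aut} {m m' : MeasurableSpace A.X} (h : m ≤ m') : LeMod A m m' :=
  fun s hs => ⟨s, h s hs, EventuallyEq.rfl⟩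

lemma LeMod.trans {A : Aut} {m m' m'' : MeasurableSpace A.X} (h : LeMod A m m')
    (h' : LeMod A m' m'') : LeMod A m m'' := by
  intro s hs
  obtain ⟨t, ht, hst⟩ := h s hs
  obtain ⟨u, hu, htu⟩ := h' t ht
  exact ⟨u, hu, hst.trans htu⟩

lemma IsFactorMap.comp {A B C : Aut} {q : A.X → B.X} {π : B.X → C.X}
    (h1 : IsFactorMap A B q) (h2 : IsFactorMap B C π) : IsFactorMap A C (π ∘ q) := by
  refine ⟨h2.1.comp h1.1, ?_⟩
  filter_upwards [h1.2, h1.1.quasiMeasurePreserving.ae h2.2] with x hx hy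
  simp only [Function.comp]
  rw [hx, hy]

lemma mp_preimage {A B : Aut} {q : B.X → A.X} (hq : MeasurePreserving q B.μ A.μ)
    {s t : Set A.X} (h : s =ᵐ[A.μ] t) : q ⁻¹' s =ᵐ[B.μ] q ⁻¹' t :=
  hq.quasiMeasurePreserving.preimage_ae_eq h

lemma IsFactorMap.comap_le {A B : Aut} {q : B.X → A.X} (hq : IsFactorMap B A q) :
    A.mX.comap q ≤ B.mX := hq.1.measurable.comap_le

lemma LeMod.comap {A B : Aut} {q : B.X → A.X} (hq : MeasurePreserving q B.μ A.μ)
    {m m' : MeasurableSpace A.X} (h : LeMod A m m') : LeMod B (m.comap q) (m'.comap q) := by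
  rintro _ ⟨s, hs, rfl⟩
  obtain ⟨t, ht, hst⟩ := h s hs
  exact ⟨q ⁻¹' t, ⟨t, ht, rfl⟩, mp_preimage hq hst⟩

lemma IsFactorIn.comap {F : Aut → Prop} {A B : Aut} {q : B.X → A.X}
    (hq : IsFactorMap B A q) {m : MeasurableSpace A.X} (h : IsFactorIn F A m) :
    IsFactorIn F B (m.comap q) := by
  obtain ⟨hle, Z, π, hZ, hπ, h1, h2⟩ := h
  refine ⟨(MeasurableSpace.comap_mono hle).trans hq.comap_le, Z, π ∘ q, hZ,
    hq.comp hπ, ?_, ?_⟩
  · rw [← MeasurableSpace.comap_comp]
    exact h1.comap hq.1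
  · rw [← MeasurableSpace.comap_comp]
    exact h2.comap hq.1

lemma isFactorIn_of_map {F : Aut → Prop} {A Z : Aut} {π : A.X → Z.X} (hZ : F Z)
    (hπ : IsFactorMap A Z π) : IsFactorIn F A (Z.mX.comap π) :=
  ⟨hπ.1.measurable.comap_le, Z, π, hZ, hπ, .of_le le_rfl, .of_le le_rfl⟩

lemma IsFactorIn.iSup {F : Aut → Prop} (hF : IsCharClass F) {A : Aut}
    {m : ℕ → MeasurableSpace A.X} (h : ∀ i, IsFactorIn F A (m i)) :
    IsFactorIn F A (⨆ i, m i) := by
  choose hle Z π hZ hπ heq using h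
  let P : A.X → ∀ i, (Z i).X := fun x i => π i x
  have hP : Measurable P := measurable_pi_lambda _ fun i => (hπ i).1.measurable
  let S : (∀ i, (Z i).X) → ∀ i, (Z i).X := fun x i => (Z i).T (x i)
  have hS : Measurable S :=
    measurable_pi_lambda _ fun i => (Z i).T.measurable.comp (measurable_pi_apply i)
  have hae : ∀ᵐ x ∂A.μ, P (A.T x) = S (P x) := by
    have : ∀ᵐ x ∂A.μ, ∀ i, π i (A.T x) = (Z i).T (π i x) := ae_all_iff.2 fun i => (hπ i).2
    filter_upwards [this] with x hx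
    funext i
    exact hx i
  have : IsProbabilityMeasure (A.μ.map P) := Measure.isProbabilityMeasure_map hP.aemeasurable
  have hmp : MeasurePreserving S (A.μ.map P) (A.μ.map P) := by
    refine ⟨hS, ?_⟩
    rw [Measure.map_map hS hP]
    have e : S ∘ P =ᵐ[A.μ] P ∘ A.T := by
      filter_upwards [hae] with x hx using hx.symm
    rw [Measure.map_congr e, ← Measure.map_map hP A.T.measurable, A.mp.map_eq]
  have hcomap : (MeasurableSpace.pi : MeasurableSpace (∀ i, (Z i).X)).comap P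
      = ⨆ i, (Z i).mX.comap (π i) := by
    unfold MeasurableSpace.pi
    rw [MeasurableSpace.comap_iSup]
    congr 1
    ext i : 1
    rw [MeasurableSpace.comap_comp]
    rfl
  refine ⟨iSup_le hle, piAut Z (A.μ.map P) hmp, P, ?_, ⟨⟨hP, rfl⟩, hae⟩, ?_, ?_⟩
  · refine hF.joining Z _ hmp (fun i => ?_) hZ
    rw [Measure.map_map (measurable_pi_apply i) hP]
    exact (hπ i).1.map_eq
  · change LeMod A _ ((MeasurableSpace.pi : MeasurableSpace (∀ i, (Z i).X)).comap P)
    rw [hcomap, leMod_iff]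
    exact iSup_le fun i => (heq i).1.trans (.of_le (le_iSup (fun i => (Z i).mX.comap (π i)) i))
  · change LeMod A ((MeasurableSpace.pi : MeasurableSpace (∀ i, (Z i).X)).comap P) _
    rw [hcomap, leMod_iff]
    exact iSup_le fun i => (heq i).2.trans (.of_le (le_iSup m i))

lemma IsFactorIn.sup {F : Aut → Prop} (hF : IsCharClass F) {A : Aut}
    {m m' : MeasurableSpace A.X} (h : IsFactorIn F A m) (h' : IsFactorIn F A m') :
    IsFactorIn F A (m ⊔ m') := by
  have e : m ⊔ m' = ⨆ i : ℕ, if i = 0 then m else m' := by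
    apply le_antisymm
    · exact sup_le (le_iSup_of_le 0 (by simp)) (le_iSup_of_le 1 (by simp))
    · refine iSup_le fun i => ?_
      split_ifs
      · exact le_sup_left
      · exact le_sup_right
  rw [e]
  refine IsFactorIn.iSup hF fun i => ?_
  split_ifs
  · exact h
  · exact h'

/-- integer iterates -/
def it (A : Aut) (k : ℤ) (x : A.X) : A.X := ((A.T.toEquiv : Equiv.Perm A.X) ^ k) x

lemma it_zero (A : Aut) (x : A.X) : it A 0 x = x := by simp [it]

lemma it_succ (A : Aut) (k : ℤ) (x : A.X) : it A (k + 1) x = it A k (A.T x) := by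
  unfold it
  rw [zpow_add_one]
  rfl

lemma it_pred (A : Aut) (k : ℤ) (x : A.X) : it A (k - 1) x = it A k (A.T.symm x) := by
  unfold it
  rw [zpow_sub_one]
  rfl

lemma mp_it (A : Aut) (k : ℤ) : MeasurePreserving (it A k) A.μ A.μ := by
  induction k using Int.induction_on with
  | zero =>
    have : it A 0 = id := funext (it_zero A)
    rw [this]
    exact MeasurePreserving.id _
  | succ k ih =>
    have : it A ((k : ℤ) + 1) = it A k ∘ A.T := funext (it_succ A k)
    rw [this]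
    exact ih.comp A.mp
  | pred k ih =>
    have : it A (-(k : ℤ) - 1) = it A (-(k : ℤ)) ∘ A.T.symm := funext (it_pred A _)
    rw [this]
    exact ih.comp (A.mp.symm A.T)

lemma IsFactorMap.it {A B : Aut} {π : A.X → B.X} (h : IsFactorMap A B π) (k : ℤ) :
    ∀ᵐ x ∂A.μ, π (it A k x) = it B k (π x) := by
  have hinv : ∀ᵐ x ∂A.μ, π (A.T.symm x) = B.T.symm (π x) := by
    filter_upwards [(A.mp.symm A.T).quasiMeasurePreserving.ae h.2] with x hx
    rw [A.T.apply_symm_apply] at hx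
    rw [hx, B.T.symm_apply_apply]
  induction k using Int.induction_on with
  | zero => exact ae_of_all _ fun x => by rw [it_zero, it_zero]
  | succ k ih =>
    filter_upwards [A.mp.quasiMeasurePreserving.ae ih, h.2] with x hx hy
    rw [it_succ, it_succ, hx, hy]
  | pred k ih =>
    filter_upwards [(A.mp.symm A.T).quasiMeasurePreserving.ae ih, hinv] with x hx hy
    rw [it_pred, it_pred, hx, hy]

/-- the shift on two-sided real sequences -/
def shift : (ℤ → ℝ) ≃ᵐ (ℤ → ℝ) where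
  toFun z k := z (k + 1)
  invFun z k := z (k - 1)
  left_inv z := by funext k; simp
  right_inv z := by funext k; simp
  measurable_toFun := measurable_pi_lambda _ fun k => measurable_pi_apply (k + 1)
  measurable_invFun := measurable_pi_lambda _ fun k => measurable_pi_apply (k - 1)

/-- the orbit map of an observable -/
def orb (A : Aut) (φ : A.X → ℝ) (x : A.X) (k : ℤ) : ℝ := φ (it A k x)

lemma measurable_orb (A : Aut) {φ : A.X → ℝ} (hφ : Measurable φ) : Measurable (orb A φ) :=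
  measurable_pi_lambda _ fun k => hφ.comp (mp_it A k).measurable

lemma orb_T (A : Aut) (φ : A.X → ℝ) (x : A.X) : orb A φ (A.T x) = shift (orb A φ x) := by
  funext k
  change φ (it A k (A.T x)) = φ (it A (k + 1) x)
  rw [it_succ]

/-- the factor generated by an observable -/
noncomputable def orbAut (A : Aut) {φ : A.X → ℝ} (hφ : Measurable φ) : Aut :=
  haveI : IsProbabilityMeasure (A.μ.map (orb A φ)) :=
    Measure.isProbabilityMeasure_map (measurable_orb A hφ).aemeasurable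
  { X := ℤ → ℝ
    μ := A.μ.map (orb A φ)
    T := shift
    mp := ⟨shift.measurable, by
      rw [Measure.map_map shift.measurable (measurable_orb A hφ)]
      have e : shift ∘ orb A φ = orb A φ ∘ A.T := funext fun x => (orb_T A φ x).symm
      rw [e, ← Measure.map_map (measurable_orb A hφ) A.T.measurable, A.mp.map_eq]⟩ }

lemma exists_factor_core {F : Aut → Prop} (hF : IsCharClass F) {A B Z : Aut}
    {q : B.X → A.X} (hq : IsFactorMap B A q) {P : B.X → Z.X} (hZ : F Z) (hP : IsFactorMap B Z P)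
    {φ : A.X → ℝ} (hφ : Measurable φ) {ψ : Z.X → ℝ} (hψ : Measurable ψ)
    (hfg : φ ∘ q =ᵐ[B.μ] ψ ∘ P) :
    ∃ m', IsFactorIn F A m' ∧ Measurable[m'] φ := by
  have hA : IsFactorMap A (orbAut A hφ) (orb A φ) :=
    ⟨⟨measurable_orb A hφ, rfl⟩, ae_of_all _ (orb_T A φ)⟩
  have hae : orb Z ψ ∘ P =ᵐ[B.μ] orb A φ ∘ q := by
    have : ∀ᵐ b ∂B.μ, ∀ k : ℤ, ψ (it Z k (P b)) = φ (it A k (q b)) := by
      rw [ae_all_iff]
      intro k
      filter_upwards [hP.it k, hq.it k, (mp_it B k).quasiMeasurePreserving.ae hfg] with b e1 e2 e3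
      rw [← e1, ← e2]
      exact e3.symm
    filter_upwards [this] with b hb
    funext k
    exact hb k
  have hZ' : IsFactorMap Z (orbAut A hφ) (orb Z ψ) := by
    refine ⟨⟨measurable_orb Z hψ, ?_⟩, ae_of_all _ (orb_T Z ψ)⟩
    change Z.μ.map (orb Z ψ) = A.μ.map (orb A φ)
    rw [← hP.1.map_eq, ← hq.1.map_eq, Measure.map_map (measurable_orb Z hψ) hP.1.measurable,
      Measure.map_map (measurable_orb A hφ) hq.1.measurable, Measure.map_congr hae]
  refine ⟨_, isFactorIn_of_map (hF.factor _ _ _ hZ' hZ) hA, ?_⟩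
  have e : φ = (fun z : ℤ → ℝ => z 0) ∘ orb A φ := by
    funext x
    simp [orb, it_zero]
  have h3 : Measurable[(orbAut A hφ).mX.comap (orb A φ)] ((fun z : ℤ → ℝ => z 0) ∘ orb A φ) :=
    (measurable_pi_apply (0 : ℤ)).comp (comap_measurable (orb A φ))
  rw [← e] at h3
  exact h3

lemma exists_factor_of_ext {F : Aut → Prop} (hF : IsCharClass F) {A B : Aut}
    {q : B.X → A.X} (hq : IsFactorMap B A q) {φ : A.X → ℝ} (hφ : Measurable φ)
    {M : MeasurableSpace B.X} (hM : IsFactorIn F B M)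
    {L : B.X → ℝ} (hL : Measurable[M] L) (h : φ ∘ q =ᵐ[B.μ] L) :
    ∃ m', IsFactorIn F A m' ∧ Measurable[m'] φ := by
  obtain ⟨-, Z, P, hZ, hP, h1, -⟩ := hM
  have h2 : EventuallyMeasurable (Z.mX.comap P) (ae B.μ) L := fun s hs => h1 _ (hL hs)
  obtain ⟨g, hg, hfg⟩ := exists_measurable_of_eventuallyMeasurable h2
  obtain ⟨ψ, hψ, rfl⟩ := hg.exists_eq_measurable_comp
  exact exists_factor_core hF hq hZ hP hφ hψ (h.trans hfg)

section prod

variable {F : Aut → Prop} (A : Aut) (Y : Type) [mY : MeasurableSpace Y]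
  [StandardBorelSpace Y] (ν : Measure Y) [IsProbabilityMeasure ν]

lemma factor_fst : IsFactorMap (prodAut A (idAut Y ν)) A Prod.fst :=
  ⟨measurePreserving_fst, ae_of_all _ fun _ => rfl⟩

lemma factor_snd : IsFactorMap (prodAut A (idAut Y ν)) (idAut Y ν) Prod.snd :=
  ⟨measurePreserving_snd, ae_of_all _ fun _ => rfl⟩

lemma factor_coord (i : ℕ) :
    IsFactorMap (prodAut A (idAut (ℕ → Y) (Measure.infinitePi fun _ : ℕ => ν)))
      (prodAut A (idAut Y ν)) (fun p : A.X × (ℕ → Y) => (p.1, p.2 i)) :=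
  ⟨(MeasurePreserving.id A.μ).prod (measurePreserving_eval_infinitePi (fun _ : ℕ => ν) i),
    ae_of_all _ fun _ => rfl⟩

variable {A Y ν}

lemma fibre_measurable (hF : IsCharClass F) {D : MeasurableSpace (A.X × Y)}
    (hD : IsFactorIn F (prodAut A (idAut Y ν)) D) {g : Set (A.X × Y)}
    (hg : MeasurableSet[D] g) :
    ∃ m', IsFactorIn F A m' ∧ Measurable[m'] fun x => (ν (Prod.mk x ⁻¹' g)).toReal := by
  have hg' : @MeasurableSet _ Prod.instMeasurableSpace g := hD.1 g hg
  let B := prodAut A (idAut (ℕ → Y) (Measure.infinitePi fun _ : ℕ => ν))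
  let M : MeasurableSpace (A.X × (ℕ → Y)) :=
    ⨆ i : ℕ, D.comap (fun p : A.X × (ℕ → Y) => (p.1, p.2 i))
  have hM : IsFactorIn F B M := IsFactorIn.iSup hF fun i => hD.comap (factor_coord A Y ν i)
  have hi : ∀ i : ℕ, Measurable[M]
      fun p : A.X × (ℕ → Y) => g.indicator (fun _ => (1 : ℝ)) (p.1, p.2 i) := by
    intro i
    have h1 : Measurable[D] (g.indicator (fun _ => (1 : ℝ))) := measurable_const.indicator hg
    have h2 : @Measurable _ _ M D (fun p : A.X × (ℕ → Y) => (p.1, p.2 i)) :=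
      Measurable.of_comap_le
        (le_iSup (fun i : ℕ => D.comap (fun p : A.X × (ℕ → Y) => (p.1, p.2 i))) i)
    exact h1.comp h2
  have hlim : Measurable[M] fun p : A.X × (ℕ → Y) => limsup (fun n : ℕ =>
      (∑ i ∈ Finset.range n, g.indicator (fun _ => (1 : ℝ)) (p.1, p.2 i)) / n) atTop :=
    Measurable.limsup fun n => Measurable.div_const (Finset.measurable_sum _ fun i _ => hi i) _
  refine exists_factor_of_ext hF (factor_fst A (ℕ → Y) _)
    (@measurable_measure_prodMk_left _ _ A.mX mY ν _ g hg').ennreal_toReal hM hlim ?_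
  filter_upwards [@lln _ _ A.mX mY A.μ ν _ _ g hg'] with p hp
  exact hp.limsup_eq.symm

theorem largest_prod (hF : IsCharClass F) {m : MeasurableSpace A.X} (hm : IsLargest F A m) :
    IsLargest F (prodAut A (idAut Y ν)) (m.prod mY) := by
  have hC : IsFactorIn F (prodAut A (idAut Y ν)) (mY.comap Prod.snd) :=
    isFactorIn_of_map (hF.ident Y ν) (factor_snd A Y ν)
  refine ⟨IsFactorIn.sup hF (hm.1.comap (factor_fst A Y ν)) hC, fun D hD s hs => ?_⟩
  have hD' := IsFactorIn.sup hF hD hC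
  refine @prod_measurable_of_fibres _ _ m A.mX _ mY hm.1.1 A.μ ν _ _ s (hD.1 s hs) fun c hc => ?_
  have h1 : MeasurableSet[D ⊔ mY.comap Prod.snd] (s ∩ Prod.snd ⁻¹' c) :=
    MeasurableSet.inter ((le_sup_left : D ≤ D ⊔ mY.comap Prod.snd) s hs)
      ((le_sup_right : mY.comap Prod.snd ≤ D ⊔ mY.comap Prod.snd) _ ⟨c, hc, rfl⟩)
  obtain ⟨m', hm', hφ⟩ := fibre_measurable hF hD' h1
  exact fun t ht => hm.2 m' hm' _ (hφ ht)

end prod

lemma exists_indicator_Lp (A : Aut) {s : Set A.X} (hs : MeasurableSet s) :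
    ∃ f : Lp ℝ 2 A.μ, f =ᵐ[A.μ] s.indicator fun _ => (1 : ℝ) :=
  ⟨indicatorConstLp 2 hs (measure_ne_top _ _) (1 : ℝ), indicatorConstLp_coeFn⟩

theorem exists_largest {F : Aut → Prop} (hF : IsCharClass F) (A : Aut) :
    ∃ m, IsLargest F A m := by
  let U : Set (Lp ℝ 2 A.μ) := {f | ∃ m, IsFactorIn F A m ∧ AEStronglyMeasurable[m] f A.μ}
  have h0 : ∃ m, IsFactorIn F A m :=
    ⟨_, isFactorIn_of_map (Z := idAut Unit (Measure.dirac ())) (π := fun _ => ())
      (hF.ident Unit _) ⟨⟨measurable_const, by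
        change A.μ.map (fun _ => ()) = Measure.dirac ()
        simp⟩, ae_of_all _ fun _ => rfl⟩⟩
  have : Fact ((2 : ℝ≥0∞) ≠ ∞) := ⟨by simp⟩
  obtain ⟨t, htU, htc, hUt⟩ :=
    (TopologicalSpace.IsSeparable.of_separableSpace U).exists_countable_dense_subset
  obtain ⟨m, hm, hmt⟩ : ∃ m : ℕ → MeasurableSpace A.X, (∀ i, IsFactorIn F A (m i)) ∧
      ∀ f ∈ t, ∃ i, AEStronglyMeasurable[m i] f A.μ := by
    rcases t.eq_empty_or_nonempty with rfl | hne
    · obtain ⟨m0, hm0⟩ := h0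
      exact ⟨fun _ => m0, fun _ => hm0, by simp⟩
    · obtain ⟨e, rfl⟩ := htc.exists_eq_range hne
      choose m hm1 hm2 using fun i => htU (mem_range_self (f := e) i)
      refine ⟨m, hm1, ?_⟩
      rintro _ ⟨i, rfl⟩
      exact ⟨i, hm2 i⟩
  have hM := IsFactorIn.iSup hF hm
  refine ⟨_, hM, fun m' hm' s hs => ?_⟩
  have hs' : MeasurableSet[A.mX] s := hm'.1 s hs
  obtain ⟨f, hf⟩ := exists_indicator_Lp A hs'
  have hfU : f ∈ U := ⟨m', hm', ⟨s.indicator fun _ => (1 : ℝ),
    (stronglyMeasurable_const (β := ℝ)).indicator hs, hf⟩⟩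
  have hcl : closure t ⊆ {f : Lp ℝ 2 A.μ | AEStronglyMeasurable[⨆ i, m i] f A.μ} := by
    refine closure_minimal (fun f hf => ?_) (isClosed_aestronglyMeasurable hM.1)
    obtain ⟨i, hi⟩ := hmt f hf
    exact hi.mono (le_iSup m i)
  obtain ⟨g, hg, hfg⟩ := hcl (hUt hfU)
  refine ⟨g ⁻¹' {1}, hg.measurable (measurableSet_singleton 1), ?_⟩
  filter_upwards [hf, hfg] with x h1 h2
  apply propext
  change x ∈ s ↔ g x = 1
  rw [← h2, h1]
  by_cases h : x ∈ s <;> simp [h]

end Pool.Agent.Lib.MP_5351bf_an
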